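import Mathlib

namespace Pool.Agent.N636.GF

/-- A context-free grammar `(V, Σ, P, S)`; the letters are natural numbers. -/
structure Gram where
  /-- the total alphabet -/
  V : Finset ℕ
  /-- the terminals -/
  T : Finset ℕ
  /-- the productions -/
  P : Finset (ℕ × List ℕ)
  /-- the start symbol -/
  S : ℕ
  TV : T ⊆ V
  SV : S ∈ V
  ST : S ∉ T
  PL : ∀ p ∈ P, p.1 ∈ V ∧ p.1 ∉ T ∧ ∀ a ∈ p.2, a ∈ V

/-- One rewriting step of the grammar. -/
def Gram.Step (G : Gram) (u v : List ℕ) : Prop :=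
  ∃ p ∈ G.P, ∃ l r : List ℕ, u = l ++ [p.1] ++ r ∧ v = l ++ p.2 ++ r

/-- The language of the grammar. -/
def Gram.lang (G : Gram) : Set (List ℕ) :=
  {w | (∀ a ∈ w, a ∈ G.T) ∧ Relation.ReflTransGen G.Step [G.S] w}

/-- `μ` is a dfl-substitution on the alphabet `V`: its values are finite sets of letters,
disjoint for different letters of `V`. -/
def Dfl (V : Finset ℕ) (μ : ℕ → Finset ℕ) : Prop :=
  ∀ a ∈ V, ∀ b ∈ V, a ≠ b → Disjoint (μ a) (μ b)

/-- `y ∈ μ(x)`, the substitution acting letterwise on the word `x`. -/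
def InSub (μ : ℕ → Finset ℕ) (y x : List ℕ) : Prop :=
  List.Forall₂ (fun b a => b ∈ μ a) y x

/-- `G'` is an interpretation of `G` modulo `μ`. -/
def IsInterp (G' G : Gram) (μ : ℕ → Finset ℕ) : Prop :=
  (∀ A ∈ G.V, A ∉ G.T → ∀ B ∈ μ A, B ∈ G'.V ∧ B ∉ G'.T) ∧
  (∀ a ∈ G.T, ∀ b ∈ μ a, b ∈ G'.T) ∧
  (∀ q ∈ G'.P, ∃ p ∈ G.P, q.1 ∈ μ p.1 ∧ InSub μ q.2 p.2) ∧
  G'.S ∈ μ G.S

/-- The family of the grammar form `G`; languages are taken modulo the empty word, which is
removed from each of them. -/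
def fam (G : Gram) : Set (Set (List ℕ)) :=
  {L | ∃ (G' : Gram) (μ : ℕ → Finset ℕ), Dfl G.V μ ∧ IsInterp G' G μ ∧ L = G'.lang \ {[]}}

/-- Grammatical families. -/
def Grammatical (F : Set (Set (List ℕ))) : Prop := ∃ G : Gram, F = fam G

/-- The pair `(L, L')` of families is dense. -/
def DensePair (L L' : Set (Set (List ℕ))) : Prop :=
  ∀ L1 L2 : Set (Set (List ℕ)), Grammatical L1 → Grammatical L2 →
    L ⊆ L1 → L1 ⊂ L2 → L2 ⊆ L' → ∃ L3, Grammatical L3 ∧ L1 ⊂ L3 ∧ L3 ⊂ L2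

/-- The form with productions `S → ab`, `S → ba` (`S, a, b` are the letters `0, 1, 2`). -/
def F1 : Gram where
  V := {0, 1, 2}
  T := {1, 2}
  P := {(0, [1, 2]), (0, [2, 1])}
  S := 0
  TV := by decide
  SV := by decide
  ST := by decide
  PL := by decide

/-- The form with the single production `S → aa` (`S, a` are the letters `0, 1`). -/
def F2 : Gram where
  V := {0, 1}
  T := {1}
  P := {(0, [1, 1])}
  S := 0
  TV := by decide
  SV := by decide
  ST := by decide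
  PL := by decide

end Pool.Agent.N636.GF
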