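import Mathlib

namespace Pool.Agent.N636.GF

/-- Shift graphs have large chromatic number. -/
theorem shift_chrom : ∀ (k : ℕ) (α : Type) [Finite α], ∃ N : ℕ, ∀ c : (Fin (k+1) → ℕ) → α,
    ∃ z : Fin (k+2) → ℕ, StrictMono z ∧ (∀ i, z i < N) ∧ c (Fin.init z) = c (Fin.tail z) := by
  intro k
  induction k with
  | zero =>
    intro α _
    refine ⟨Nat.card α + 1, fun c => ?_⟩
    obtain ⟨i, j, hij, hc⟩ : ∃ i j : Fin (Nat.card α + 1), i < j ∧
        c (fun _ => (i : ℕ)) = c (fun _ => (j : ℕ)) := by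
      by_contra hno
      push Not at hno
      have hinj : Function.Injective (fun i : Fin (Nat.card α + 1) => c (fun _ => (i : ℕ))) := by
        intro i j h
        rcases lt_trichotomy i j with h1 | h1 | h1
        · exact absurd h (hno i j h1)
        · exact h1
        · exact absurd h.symm (hno j i h1)
      have := Nat.card_le_card_of_injective _ hinj
      simp at this
    refine ⟨![(i : ℕ), (j : ℕ)], ?_, ?_, ?_⟩
    · intro a b hab
      fin_cases a <;> fin_cases b <;> simp_all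
    · intro a
      fin_cases a
      · exact i.2
      · exact j.2
    · have e1 : (Fin.init ![(i : ℕ), (j : ℕ)] : Fin 1 → ℕ) = fun _ => (i : ℕ) := by
        funext a; fin_cases a; rfl
      have e2 : (Fin.tail ![(i : ℕ), (j : ℕ)] : Fin 1 → ℕ) = fun _ => (j : ℕ) := by
        funext a; fin_cases a; rfl
      rw [e1, e2]; exact hc
  | succ k ih =>
    intro α _
    obtain ⟨N, hN⟩ := ih (Set α)
    refine ⟨N, fun c => ?_⟩
    obtain ⟨w, hw, hwN, hc⟩ := hN (fun x => {a | ∃ z : Fin (k+2) → ℕ, StrictMono z ∧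
      (∀ i, z i < N) ∧ Fin.init z = x ∧ c z = a})
    have h1 : c w ∈ {a | ∃ z : Fin (k+2) → ℕ, StrictMono z ∧
      (∀ i, z i < N) ∧ Fin.init z = Fin.init w ∧ c z = a} := ⟨w, hw, hwN, rfl, rfl⟩
    have hc' : {a | ∃ z : Fin (k+2) → ℕ, StrictMono z ∧
      (∀ i, z i < N) ∧ Fin.init z = Fin.init w ∧ c z = a} = {a | ∃ z : Fin (k+2) → ℕ, StrictMono z ∧
      (∀ i, z i < N) ∧ Fin.init z = Fin.tail w ∧ c z = a} := hc
    rw [hc'] at h1
    obtain ⟨z, hz, hzN, hi, hcz⟩ := h1
    refine ⟨Fin.cons (w 0) z, ?_, ?_, ?_⟩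
    · rw [Fin.strictMono_iff_lt_succ]
      intro i
      refine Fin.cases ?_ (fun i => ?_) i
      · have h0 : z 0 = w 1 := by
          have := congrFun hi 0
          simpa [Fin.init, Fin.tail] using this
        simp only [Fin.castSucc_zero, Fin.cons_zero]
        change w 0 < z 0
        rw [h0]
        exact hw (by simp)
      · have : (Fin.succ i).castSucc = (Fin.castSucc i).succ := rfl
        rw [this, Fin.cons_succ, Fin.cons_succ]
        exact hz (Fin.castSucc_lt_succ)
    · intro i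
      refine Fin.cases ?_ (fun i => ?_) i
      · exact hwN 0
      · simpa using hzN i
    · have e2 : (Fin.tail (Fin.cons (w 0) z : Fin (k+3) → ℕ)) = z := Fin.tail_cons _ _
      have e1 : (Fin.init (Fin.cons (w 0) z : Fin (k+3) → ℕ)) = w := by
        funext i
        refine Fin.cases ?_ (fun i => ?_) i
        · rfl
        · have := congrFun hi i
          simp only [Fin.init, Fin.tail] at this ⊢
          rw [← this]
          rfl
      rw [e1, e2, hcz]

/-- adjacency in the shift graph. -/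
def Sh {k : ℕ} (x y : Fin k → ℕ) : Prop :=
  ∃ z : Fin (k+1) → ℕ, StrictMono z ∧ x = Fin.init z ∧ y = Fin.tail z

/-- the shift graph on a finite set of tuples. -/
def SG {k : ℕ} (W : Finset (Fin (k+1) → ℕ)) : SimpleGraph W where
  Adj x y := Sh x.1 y.1 ∨ Sh y.1 x.1
  symm := ⟨fun _ _ h => h.symm⟩
  loopless := ⟨by
    intro x h
    have h' : Sh x.1 x.1 := by rcases h with h | h <;> exact h
    obtain ⟨z, hz, h1, h2⟩ := h'
    have h3 := congrFun (h1.symm.trans h2) 0
    have h4 : z 0 < z 1 := hz (by simp)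
    simp only [Fin.init, Fin.tail] at h3
    have h5 : z 0 = z 1 := h3
    omega⟩

theorem walk_mem {k : ℕ} {W : Finset (Fin (k+1) → ℕ)} {x y : W} (p : (SG W).Walk x y) :
    ∀ i : Fin (k+1), p.length ≤ i.val → i.val + p.length < k + 1 → ∃ j, y.1 j = x.1 i := by
  induction p with
  | nil => intro i _ _; exact ⟨i, rfl⟩
  | cons h p ih =>
    rename_i u v w
    intro i h1 h2
    rw [SimpleGraph.Walk.length_cons] at h1 h2
    rcases h with ⟨z, hz, e1, e2⟩ | ⟨z, hz, e1, e2⟩
    · -- v = tail z, u = init z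
      obtain ⟨j, hj⟩ := ih ⟨i.val - 1, by omega⟩ (by simp; omega) (by simp; omega)
      refine ⟨j, hj.trans ?_⟩
      rw [e1, e2]
      simp only [Fin.init, Fin.tail]
      congr 1
      ext
      simp
      omega
    · obtain ⟨j, hj⟩ := ih ⟨i.val + 1, by omega⟩ (by simp; omega) (by simp; omega)
      refine ⟨j, hj.trans ?_⟩
      rw [e1, e2]
      simp only [Fin.init, Fin.tail]
      congr 1

/-- Small sets of tuples span 2-colourable subgraphs. -/
theorem shift_local (k n : ℕ) (hk : 2 * n ≤ k) (W : Finset (Fin (k+1) → ℕ)) (hW : W.card ≤ n) :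
    ∃ c : (Fin (k+1) → ℕ) → Bool, ∀ x ∈ W, ∀ y ∈ W, Sh x y → c x ≠ c y := by
  classical
  let mid : Fin (k+1) := ⟨n, by omega⟩
  have key : ∀ x : W, ∃ j, x.1 j = (((SG W).connectedComponentMk x).out).1 mid := by
    intro x
    have hr : (SG W).Reachable (((SG W).connectedComponentMk x).out) x :=
      SimpleGraph.ConnectedComponent.exact (Quot.out_eq _)
    obtain ⟨p⟩ := hr
    have hlt := (p.toPath).2.length_lt
    rw [Fintype.card_coe] at hlt
    exact walk_mem (p.toPath).1 mid (by simp [mid]; omega) (by simp [mid]; omega)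
  choose j hj using key
  refine ⟨fun x => if h : x ∈ W then decide (Even (j ⟨x, h⟩).val) else false, ?_⟩
  intro x hx y hy hxy
  simp only [hx, hy, dif_pos]
  have hc : (SG W).connectedComponentMk ⟨x, hx⟩ = (SG W).connectedComponentMk ⟨y, hy⟩ := by
    apply SimpleGraph.ConnectedComponent.sound
    exact SimpleGraph.Adj.reachable (Or.inl hxy)
  have h1 := hj ⟨x, hx⟩
  have h2 := hj ⟨y, hy⟩
  rw [← hc] at h2
  obtain ⟨z, hz, e1, e2⟩ := hxy
  have h3 : x (j ⟨x, hx⟩) = y (j ⟨y, hy⟩) := h1.trans h2.symm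
  have h3' : z (j ⟨x, hx⟩).castSucc = z (j ⟨y, hy⟩).succ :=
    ((congrFun e1 (j ⟨x, hx⟩)).symm.trans h3).trans (congrFun e2 (j ⟨y, hy⟩))
  have h4 := hz.injective h3'
  have h5 : (j ⟨x, hx⟩).val = (j ⟨y, hy⟩).val + 1 := by
    have := congrArg Fin.val h4
    simpa using this
  intro hcon
  rw [decide_eq_decide] at hcon
  rw [h5] at hcon
  rw [Nat.even_add_one] at hcon
  tauto

end Pool.Agent.N636.GF
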