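import Mathlib
import Pool.Agent.N636.GF.Shift

namespace Pool.Agent.N636.GF

/-- `Hom L M`: some letter-to-letter map sends every word of `L` to a word of `M`. -/
def Hom (L M : Set (List ℕ)) : Prop := ∃ h : ℕ → ℕ, ∀ w ∈ L, w.map h ∈ M

theorem Hom.trans {L M K : Set (List ℕ)} (h1 : Hom L M) (h2 : Hom M K) : Hom L K := by
  obtain ⟨f, hf⟩ := h1
  obtain ⟨g, hg⟩ := h2
  refine ⟨g ∘ f, fun w hw => ?_⟩
  rw [← List.map_map]
  exact hg _ (hf w hw)

theorem letters {B : Set (List ℕ)} (hB : B.Finite) :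
    ∃ l : Finset ℕ, ∀ w ∈ B, ∀ a ∈ w, a ∈ l := by
  classical
  refine ⟨hB.toFinset.biUnion List.toFinset, fun w hw a ha => ?_⟩
  simp only [Finset.mem_biUnion, Set.Finite.mem_toFinset, List.mem_toFinset]
  exact ⟨w, hw, ha⟩

theorem sandwich (A B : Set (List ℕ)) (hA : A.Finite) (hB : B.Finite)
    (hA2 : ∀ w ∈ A, w.length = 2) (hB2 : ∀ w ∈ B, w.length = 2) (p q : ℕ)
    (hp : [p, q] ∈ A) (hq : [q, p] ∈ A) (hAB : Hom A B) (hBA : ¬ Hom B A) :
    ∃ C : Set (List ℕ), C.Finite ∧ (∀ w ∈ C, w.length = 2) ∧ Hom A C ∧ Hom C B ∧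
      ¬ Hom C A ∧ ¬ Hom B C := by
  classical
  obtain ⟨lA, hlA⟩ := letters hA
  obtain ⟨lB, hlB⟩ := letters hB
  obtain ⟨k, hk⟩ : ∃ k, k = 2 * lB.card := ⟨_, rfl⟩
  obtain ⟨N, hN⟩ := shift_chrom k (lB → Option lA)
  obtain ⟨e, dec, hdec⟩ : ∃ (e : (Fin (k+1) → ℕ) × ℕ → ℕ) (dec : ℕ → (Fin (k+1) → ℕ) × ℕ),
      ∀ x, dec (e x) = x := by
    refine ⟨Encodable.encode, fun c => (Encodable.decode c).getD (fun _ => 0, 0), fun x => ?_⟩
    simp
  let C1 : Set (List ℕ) := {w | ∃ a b, [a, b] ∈ A ∧ w = [2 * a, 2 * b]}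
  let C2 : Set (List ℕ) := {w | ∃ z : Fin (k+2) → ℕ, StrictMono z ∧ (∀ i, z i < N) ∧
    ∃ a b, [a, b] ∈ B ∧ w = [2 * e (Fin.init z, a) + 1, 2 * e (Fin.tail z, b) + 1]}
  have f1 : C1.Finite := by
    refine (hA.image (List.map (2 * ·))).subset ?_
    rintro w ⟨a, b, hab, rfl⟩
    exact ⟨[a, b], hab, rfl⟩
  have f2 : C2.Finite := by
    have hS : {z : Fin (k+2) → ℕ | ∀ i, z i ∈ Set.Iio N}.Finite :=
      Set.Finite.pi' (fun _ => Set.finite_Iio N)
    refine ((hS.prod (lB.finite_toSet.prod lB.finite_toSet)).image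
      (fun t => [2 * e (Fin.init t.1, t.2.1) + 1, 2 * e (Fin.tail t.1, t.2.2) + 1])).subset ?_
    rintro w ⟨z, hz, hzN, a, b, hab, rfl⟩
    refine ⟨(z, (a, b)), ⟨hzN, ?_, ?_⟩, rfl⟩
    · exact hlB _ hab a (by simp)
    · exact hlB _ hab b (by simp)
  refine ⟨C1 ∪ C2, f1.union f2, ?_, ?_, ?_, ?_, ?_⟩
  · rintro w (⟨a, b, _, rfl⟩ | ⟨z, _, _, a, b, _, rfl⟩) <;> rfl
  · refine ⟨fun a => 2 * a, fun w hw => ?_⟩
    obtain ⟨a, b, rfl⟩ := List.length_eq_two.1 (hA2 w hw)
    exact Or.inl ⟨a, b, hw, rfl⟩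
  · obtain ⟨f, hf⟩ := hAB
    refine ⟨fun c => if c % 2 = 0 then f (c / 2) else (dec ((c - 1) / 2)).2, ?_⟩
    rintro w (⟨a, b, hab, rfl⟩ | ⟨z, _, _, a, b, hab, rfl⟩)
    · have := hf _ hab
      simpa using this
    · have h1 : ∀ x, (2 * x + 1) % 2 ≠ 0 := by intro x; omega
      have h2 : ∀ x, (2 * x + 1 - 1) / 2 = x := by intro x; omega
      simp only [List.map_cons, List.map_nil, h1, if_false, h2, hdec]
      exact hab
  · rintro ⟨g, hg⟩
    apply hBA
    obtain ⟨z, hz, hzN, hc⟩ := hN (fun x b =>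
      if h : g (2 * e (x, b.1) + 1) ∈ lA then some ⟨_, h⟩ else none)
    have hw : ∀ a b, [a, b] ∈ B →
        [g (2 * e (Fin.init z, a) + 1), g (2 * e (Fin.tail z, b) + 1)] ∈ A := by
      intro a b hab
      exact hg _ (Or.inr ⟨z, hz, hzN, a, b, hab, rfl⟩)
    refine ⟨fun b => g (2 * e (Fin.init z, b) + 1), fun w hwB => ?_⟩
    obtain ⟨a, b, rfl⟩ := List.length_eq_two.1 (hB2 w hwB)
    have hab := hw a b hwB
    have hb : b ∈ lB := hlB _ hwB b (by simp)
    have h2 : g (2 * e (Fin.tail z, b) + 1) ∈ lA := hlA _ hab _ (by simp)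
    have h3 := congrFun hc ⟨b, hb⟩
    simp only [h2, dif_pos] at h3
    have h4 : g (2 * e (Fin.init z, b) + 1) = g (2 * e (Fin.tail z, b) + 1) := by
      by_cases h5 : g (2 * e (Fin.init z, b) + 1) ∈ lA
      · rw [dif_pos h5] at h3
        have := Option.some.inj h3
        exact congrArg Subtype.val this
      · rw [dif_neg h5] at h3
        exact absurd h3 (by simp)
    simp only [List.map_cons, List.map_nil]
    rw [h4]
    exact hab
  · rintro ⟨g, hg⟩
    apply hBA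
    obtain ⟨c, hc⟩ := shift_local k lB.card (by omega)
      (lB.image (fun b => (dec ((g b - 1) / 2)).1)) Finset.card_image_le
    refine ⟨fun b => if g b % 2 = 0 then g b / 2 else
      (if c ((dec ((g b - 1) / 2)).1) then p else q), fun w hwB => ?_⟩
    obtain ⟨a, b, rfl⟩ := List.length_eq_two.1 (hB2 w hwB)
    have ha : a ∈ lB := hlB _ hwB a (by simp)
    have hb : b ∈ lB := hlB _ hwB b (by simp)
    have hab := hg _ hwB
    simp only [List.map_cons, List.map_nil] at hab ⊢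
    rcases hab with ⟨a', b', hab', he⟩ | ⟨z, hz, _, a', b', _, he⟩
    · simp only [List.cons.injEq, and_true] at he
      obtain ⟨e1, e2⟩ := he
      have h1 : g a % 2 = 0 := by omega
      have h2 : g b % 2 = 0 := by omega
      have h3 : g a / 2 = a' := by omega
      have h4 : g b / 2 = b' := by omega
      rw [if_pos h1, if_pos h2, h3, h4]
      exact hab'
    · simp only [List.cons.injEq, and_true] at he
      obtain ⟨e1, e2⟩ := he
      have h1 : ¬ g a % 2 = 0 := by omega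
      have h2 : ¬ g b % 2 = 0 := by omega
      have h3 : (g a - 1) / 2 = e (Fin.init z, a') := by omega
      have h4 : (g b - 1) / 2 = e (Fin.tail z, b') := by omega
      rw [if_neg h1, if_neg h2, h3, h4, hdec, hdec]
      have hne := hc (Fin.init z) (by
          rw [Finset.mem_image]; exact ⟨a, ha, by rw [h3, hdec]⟩) (Fin.tail z) (by
          rw [Finset.mem_image]; exact ⟨b, hb, by rw [h4, hdec]⟩) ⟨z, hz, rfl, rfl⟩
      simp only
      cases h5 : c (Fin.init z) <;> cases h6 : c (Fin.tail z)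
      · rw [h5, h6] at hne; exact absurd rfl hne
      · simpa using hq
      · simpa using hp
      · rw [h5, h6] at hne; exact absurd rfl hne

end Pool.Agent.N636.GF
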