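import Mathlib
import Pool.Agent.N636.GF.Defs
import Pool.Agent.N636.GF.Sand

namespace Pool.Agent.N636.GF

theorem forall2_split {R : ℕ → ℕ → Prop} : ∀ (l r x : List ℕ), List.Forall₂ R (l ++ r) x →
    ∃ x1 x2, x = x1 ++ x2 ∧ List.Forall₂ R l x1 ∧ List.Forall₂ R r x2 := by
  intro l
  induction l with
  | nil => intro r x h; exact ⟨[], x, rfl, List.Forall₂.nil, h⟩
  | cons a l ih =>
    intro r x h
    rw [List.cons_append, List.forall₂_cons_left_iff] at h
    obtain ⟨b, u, hab, hu, rfl⟩ := h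
    obtain ⟨x1, x2, rfl, h1, h2⟩ := ih r u hu
    exact ⟨b :: x1, x2, rfl, List.Forall₂.cons hab h1, h2⟩

theorem forall2_append {R : ℕ → ℕ → Prop} : ∀ (l x : List ℕ) (r y : List ℕ), List.Forall₂ R l x →
    List.Forall₂ R r y → List.Forall₂ R (l ++ r) (x ++ y) := by
  intro l x r y h1 h2
  induction h1 with
  | nil => exact h2
  | cons h _ ih => exact List.Forall₂.cons h ih

theorem interp_deriv {G' G : Gram} {μ : ℕ → Finset ℕ} (hμ : Dfl G.V μ) (hi : IsInterp G' G μ)
    (u : List ℕ) (hu : Relation.ReflTransGen G'.Step [G'.S] u) :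
    ∃ x, List.Forall₂ (fun b a => b ∈ μ a) u x ∧ (∀ a ∈ x, a ∈ G.V) ∧
      Relation.ReflTransGen G.Step [G.S] x := by
  obtain ⟨h1, h2, h3, h4⟩ := hi
  induction hu with
  | refl =>
    exact ⟨[G.S], List.Forall₂.cons h4 List.Forall₂.nil, by simpa using G.SV,
      Relation.ReflTransGen.refl⟩
  | tail _ hstep ih =>
    obtain ⟨x, hx, hxV, hder⟩ := ih
    obtain ⟨q, hq, l, r, rfl, rfl⟩ := hstep
    obtain ⟨x12, x3, rfl, h12, hr⟩ := forall2_split _ _ _ hx
    obtain ⟨x1, x2, rfl, hl, hm⟩ := forall2_split _ _ _ h12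
    rw [List.forall₂_cons_left_iff] at hm
    obtain ⟨A', t, hA', ht, rfl⟩ := hm
    rw [List.forall₂_nil_left_iff] at ht
    subst ht
    obtain ⟨p, hp, hq1, hq2⟩ := h3 q hq
    have hA'V : A' ∈ G.V := hxV A' (by simp)
    have hpV := G.PL p hp
    have hAA : A' = p.1 := by
      by_contra hne
      have := hμ A' hA'V p.1 hpV.1 hne
      exact Finset.disjoint_left.1 this hA' hq1
    subst hAA
    refine ⟨x1 ++ p.2 ++ x3, ?_, ?_, ?_⟩
    · exact forall2_append _ _ _ _ (forall2_append _ _ _ _ hl hq2) hr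
    · intro a ha
      simp only [List.mem_append] at ha hxV
      rcases ha with (ha | ha) | ha
      · exact hxV a (Or.inl (Or.inl ha))
      · exact hpV.2.2 a ha
      · exact hxV a (Or.inr ha)
    · exact hder.tail ⟨p, hp, x1, x3, rfl, rfl⟩

theorem fam_down {G : Gram} {L : Set (List ℕ)} (hL : L ∈ fam G) : Hom L (G.lang \ {[]}) := by
  classical
  obtain ⟨G', μ, hμ, hi, rfl⟩ := hL
  refine ⟨fun b => if h : ∃ a ∈ G.V, b ∈ μ a then h.choose else 0, ?_⟩
  rintro w ⟨⟨hwT, hw⟩, hne⟩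
  obtain ⟨x, hx, hxV, hder⟩ := interp_deriv hμ hi w hw
  have hT : ∀ a ∈ x, a ∈ G.T := by
    have : ∀ (w x : List ℕ), List.Forall₂ (fun b a => b ∈ μ a) w x → (∀ a ∈ w, a ∈ G'.T) →
        (∀ a ∈ x, a ∈ G.V) → ∀ a ∈ x, a ∈ G.T := by
      intro w x h
      induction h with
      | nil => intro _ _ a ha; simp at ha
      | cons hba _ ih =>
        rename_i b a l1 l2 _
        intro h1 h2 c hc
        rw [List.mem_cons] at hc
        rcases hc with rfl | hc
        · by_contra hcT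
          exact (hi.1 c (h2 c (by simp)) hcT b hba).2 (h1 b (by simp))
        · exact ih (fun a ha => h1 a (by simp [ha])) (fun a ha => h2 a (by simp [ha])) c hc
    exact this w x hx hwT hxV
  have hmap : w.map (fun b => if h : ∃ a ∈ G.V, b ∈ μ a then h.choose else 0) = x := by
    clear hwT hw hne hder hT
    induction hx with
    | nil => rfl
    | cons hba _ ih =>
      rename_i b a l1 l2 _
      rw [List.map_cons, ih (fun a ha => hxV a (by simp [ha]))]
      congr 1
      have haV : a ∈ G.V := hxV a (by simp)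
      have hex : ∃ a ∈ G.V, b ∈ μ a := ⟨a, haV, hba⟩
      rw [dif_pos hex]
      by_contra hne
      exact Finset.disjoint_left.1 (hμ _ hex.choose_spec.1 a haV hne) hex.choose_spec.2 hba
  rw [hmap]
  refine ⟨⟨hT, hder⟩, ?_⟩
  intro hx0
  rw [Set.mem_singleton_iff] at hx0
  subst hx0
  rw [List.forall₂_nil_right_iff] at hx
  exact hne hx

theorem finite_words (T : Finset ℕ) (n : ℕ) :
    {w : List ℕ | w.length ≤ n ∧ ∀ a ∈ w, a ∈ T}.Finite := by
  refine ((List.finite_length_le (α := {a // a ∈ T}) n).image (List.map Subtype.val)).subset ?_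
  rintro w ⟨h1, h2⟩
  refine ⟨w.attach.map (fun a => ⟨a.1, h2 a.1 a.2⟩), ?_, ?_⟩
  · simpa using h1
  · simp

theorem fam_finite {G : Gram} (hG : (G.lang \ {[]}).Finite) {L : Set (List ℕ)} (hL : L ∈ fam G) :
    L.Finite ∧ [] ∉ L := by
  obtain ⟨h, hh⟩ := fam_down hL
  obtain ⟨G', μ, hμ, hi, rfl⟩ := hL
  refine ⟨?_, fun h => h.2 rfl⟩
  obtain ⟨n, hn⟩ := (hG.image List.length).bddAbove
  refine (finite_words G'.T n).subset ?_
  intro w hw
  refine ⟨?_, hw.1.1⟩
  have := hn ⟨_, hh w hw, rfl⟩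
  simpa using this

theorem self_mem (G : Gram) : G.lang \ {[]} ∈ fam G := by
  refine ⟨G, fun a => {a}, ?_, ⟨?_, ?_, ?_, ?_⟩, rfl⟩
  · intro a _ b _ hab
    simpa using hab
  · intro A hA hAT B hB
    rw [Finset.mem_singleton] at hB
    subst hB
    exact ⟨hA, hAT⟩
  · intro a ha b hb
    rw [Finset.mem_singleton] at hb
    subst hb
    exact ha
  · intro q hq
    refine ⟨q, hq, by simp, ?_⟩
    unfold InSub
    rw [List.forall₂_same]
    simp
  · simp

end Pool.Agent.N636.GF
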