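import Mathlib
import Pool.Agent.N636.GF.Down

namespace Pool.Agent.N636.GF

/-- the nonterminal meaning `A derives exactly u`. -/
def code (M A : ℕ) (u : List ℕ) : ℕ := M + 1 + Encodable.encode (A, u)

theorem code_inj {M A B : ℕ} {u v : List ℕ} (h : code M A u = code M B v) : A = B ∧ u = v := by
  unfold code at h
  have h1 : Encodable.encode (A, u) = Encodable.encode (B, v) := by omega
  have h2 := Encodable.encode_injective h1
  exact ⟨congrArg Prod.fst h2, congrArg Prod.snd h2⟩

/-- the word coded by a letter. -/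
def expand (M c : ℕ) : List ℕ :=
  if c < M then [c] else
    ((Encodable.decode (α := ℕ × List ℕ) (c - M - 1)).getD (0, [])).2

theorem expand_code (M A : ℕ) (u : List ℕ) : expand M (code M A u) = u := by
  unfold expand code
  have h1 : ¬ (M + 1 + Encodable.encode (A, u) < M) := by omega
  have h2 : M + 1 + Encodable.encode (A, u) - M - 1 = Encodable.encode (A, u) := by omega
  rw [if_neg h1, h2]
  simp

/-- `y` is obtained from `x` by writing letters of `lL` over terminals and coded
nonterminals over nonterminals; `u` is the word described. -/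
inductive Mt (G : Gram) (lL : Finset ℕ) (M : ℕ) (h : ℕ → ℕ) :
    List ℕ → List ℕ → List ℕ → Prop
  | nil : Mt G lL M h [] [] []
  | term (a b : ℕ) (x u y : List ℕ) : a ∈ G.T → b ∈ lL → h b = a → Mt G lL M h x u y →
      Mt G lL M h (a :: x) (b :: u) (b :: y)
  | nont (A : ℕ) (u1 x u y : List ℕ) : A ∈ G.V → A ∉ G.T → Mt G lL M h x u y →
      Mt G lL M h (A :: x) (u1 ++ u) (code M A u1 :: y)

variable {G : Gram} {lL : Finset ℕ} {M : ℕ} {h : ℕ → ℕ}

theorem Mt.len {x u y : List ℕ} (m : Mt G lL M h x u y) : y.length = x.length := by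
  induction m with
  | nil => rfl
  | term a b x u y _ _ _ _ ih => simp [ih]
  | nont A u1 x u y _ _ _ ih => simp [ih]

theorem Mt.expand (hM : ∀ b ∈ lL, b < M) {x u y : List ℕ} (m : Mt G lL M h x u y) :
    y.flatMap (GF.expand M) = u := by
  induction m with
  | nil => rfl
  | term a b x u y _ hb _ _ ih =>
    rw [List.flatMap_cons, ih]
    simp [GF.expand, hM b hb]
  | nont A u1 x u y _ _ _ ih =>
    rw [List.flatMap_cons, ih, expand_code]

theorem Mt.split : ∀ (l r u y : List ℕ), Mt G lL M h (l ++ r) u y →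
    ∃ u1 u2 y1 y2, u = u1 ++ u2 ∧ y = y1 ++ y2 ∧ Mt G lL M h l u1 y1 ∧ Mt G lL M h r u2 y2 := by
  intro l
  induction l with
  | nil => intro r u y m; exact ⟨[], u, [], y, rfl, rfl, Mt.nil, m⟩
  | cons a l ih =>
    intro r u y m
    rw [List.cons_append] at m
    cases m with
    | term _ b _ u y ha hb hab m =>
      obtain ⟨u1, u2, y1, y2, rfl, rfl, m1, m2⟩ := ih r u y m
      exact ⟨b :: u1, u2, b :: y1, y2, rfl, rfl, Mt.term _ _ _ _ _ ha hb hab m1, m2⟩
    | nont _ v _ u y hA hA' m =>
      obtain ⟨u1, u2, y1, y2, rfl, rfl, m1, m2⟩ := ih r u y m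
      refine ⟨v ++ u1, u2, code M a v :: y1, y2, ?_, rfl, Mt.nont _ _ _ _ _ hA hA' m1, m2⟩
      rw [List.append_assoc]

theorem Mt.append {l u1 y1 r u2 y2 : List ℕ} (m1 : Mt G lL M h l u1 y1)
    (m2 : Mt G lL M h r u2 y2) : Mt G lL M h (l ++ r) (u1 ++ u2) (y1 ++ y2) := by
  induction m1 with
  | nil => exact m2
  | term a b x u y ha hb hab _ ih => exact Mt.term _ _ _ _ _ ha hb hab ih
  | nont A v x u y hA hA' _ ih =>
    rw [List.append_assoc]
    exact Mt.nont _ _ _ _ _ hA hA' ih

theorem Mt.ofTerm : ∀ (u : List ℕ), (∀ b ∈ u, b ∈ lL ∧ h b ∈ G.T) → Mt G lL M h (u.map h) u u := by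
  intro u
  induction u with
  | nil => intro _; exact Mt.nil
  | cons b u ih =>
    intro hb
    rw [List.map_cons]
    exact Mt.term _ _ _ _ _ (hb b (by simp)).2 (hb b (by simp)).1 rfl
      (ih (fun c hc => hb c (by simp [hc])))

theorem Mt.letters {n : ℕ} {x u y : List ℕ} (m : Mt G lL M h x u y) :
    u.length ≤ n → (∀ b ∈ u, b ∈ lL) → ∀ c ∈ y, c ∈ lL ∨ ∃ A v, A ∈ G.V ∧ A ∉ G.T ∧
      (v.length ≤ n ∧ ∀ b ∈ v, b ∈ lL) ∧ c = code M A v := by
  induction m with
  | nil => intro _ _ c hc; simp at hc
  | term a b x u y _ hb _ _ ih =>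
    intro h1 h2 c hc
    rw [List.mem_cons] at hc
    rcases hc with rfl | hc
    · exact Or.inl hb
    · exact ih (by simp at h1; omega) (fun b hb => h2 b (by simp [hb])) c hc
  | nont A v x u y hA hA' _ ih =>
    intro h1 h2 c hc
    rw [List.length_append] at h1
    rw [List.mem_cons] at hc
    rcases hc with rfl | hc
    · exact Or.inr ⟨A, v, hA, hA', ⟨by omega, fun b hb => h2 b (by simp [hb])⟩, rfl⟩
    · exact ih (by omega) (fun b hb => h2 b (by simp [hb])) c hc

theorem Mt.sub {μ : ℕ → Finset ℕ} {n : ℕ} {x u y : List ℕ} (m : Mt G lL M h x u y)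
    (hT : ∀ a ∈ G.T, ∀ b ∈ lL, h b = a → b ∈ μ a)
    (hN : ∀ A ∈ G.V, A ∉ G.T → ∀ v : List ℕ, v.length ≤ n → (∀ b ∈ v, b ∈ lL) → code M A v ∈ μ A) :
    u.length ≤ n → (∀ b ∈ u, b ∈ lL) → InSub μ y x := by
  induction m with
  | nil => intro _ _; exact List.Forall₂.nil
  | term a b x u y ha hb hab _ ih =>
    intro h1 h2
    exact List.Forall₂.cons (hT a ha b hb hab)
      (ih (by simp at h1; omega) (fun b hb => h2 b (by simp [hb])))
  | nont A v x u y hA hA' _ ih =>
    intro h1 h2
    rw [List.length_append] at h1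
    exact List.Forall₂.cons (hN A hA hA' v (by omega) (fun b hb => h2 b (by simp [hb])))
      (ih (by omega) (fun b hb => h2 b (by simp [hb])))

theorem fam_up {G : Gram} {L : Set (List ℕ)} (hf : L.Finite) (hn : [] ∉ L)
    (hh : Hom L (G.lang \ {[]})) : L ∈ fam G := by
  classical
  obtain ⟨h, hh⟩ := hh
  obtain ⟨lL, hlL⟩ := letters hf
  obtain ⟨M, hM⟩ : ∃ M, ∀ b ∈ lL, b < M := by
    obtain ⟨m, hm⟩ := lL.bddAbove
    exact ⟨m + 1, fun b hb => Nat.lt_succ_of_le (hm hb)⟩
  obtain ⟨n, hn'⟩ := (hf.image List.length).bddAbove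
  have hnL : ∀ w ∈ L, w.length ≤ n := fun w hw => hn' ⟨w, hw, rfl⟩
  obtain ⟨Fac, hFac⟩ : ∃ Fac : Finset (List ℕ), ∀ u, u ∈ Fac ↔
      (u.length ≤ n ∧ ∀ a ∈ u, a ∈ lL) :=
    ⟨(finite_words lL n).toFinset, fun u => by simp⟩
  let Codes : Finset ℕ := ((G.V \ G.T) ×ˢ Fac).image (fun t => code M t.1 t.2)
  have hCodes : ∀ A ∈ G.V, A ∉ G.T → ∀ v, v ∈ Fac → code M A v ∈ Codes := by
    intro A hA hA' v hv
    simp only [Codes, Finset.mem_image, Finset.mem_product, Finset.mem_sdiff]
    exact ⟨(A, v), ⟨⟨hA, hA'⟩, hv⟩, rfl⟩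
  have hCodesM : ∀ c ∈ Codes, M < c := by
    intro c hc
    simp only [Codes, Finset.mem_image] at hc
    obtain ⟨t, _, rfl⟩ := hc
    unfold code; omega
  let V' : Finset ℕ := (lL ∪ {M}) ∪ Codes
  obtain ⟨m, hm⟩ : ∃ m, ∀ p ∈ G.P, p.2.length ≤ m := by
    obtain ⟨m, hm⟩ := (G.P.image (fun p => p.2.length)).bddAbove
    exact ⟨m, fun p hp => hm (by simpa using ⟨p.1, p.2, hp, rfl⟩)⟩
  let PS : Set (ℕ × List ℕ) := {q | ∃ A u x, (A, x) ∈ G.P ∧ u ∈ Fac ∧ Mt G lL M h x u q.2 ∧
    (q.1 = code M A u ∨ (q.1 = M ∧ A = G.S ∧ u ∈ L))}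
  have hPSV : ∀ q ∈ PS, (q.1 = M ∨ q.1 ∈ Codes) ∧ q.2.length ≤ m ∧ ∀ a ∈ q.2, a ∈ V' := by
    rintro q ⟨A, u, x, hp, hu, hmt, hq⟩
    have hpl := G.PL _ hp
    refine ⟨?_, ?_, ?_⟩
    · rcases hq with hq | hq
      · right; rw [hq]; exact hCodes A hpl.1 hpl.2.1 u hu
      · left; exact hq.1
    · rw [hmt.len]; exact hm _ hp
    · intro a ha
      have hu' := (hFac u).1 hu
      rcases hmt.letters hu'.1 hu'.2 a ha with h1 | ⟨B, v, hB, hB', hv, rfl⟩
      · simp [V', h1]
      · have := hCodes B hB hB' v ((hFac v).2 hv)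
        simp [V', this]
  have hPSf : PS.Finite := by
    refine ((V'.finite_toSet).prod (finite_words V' m)).subset ?_
    intro q hq
    obtain ⟨h1, h2, h3⟩ := hPSV q hq
    refine ⟨?_, h2, h3⟩
    rcases h1 with h1 | h1
    · simp [V', h1]
    · simp [V', h1]
  have hML : M ∉ lL := fun hc => lt_irrefl _ (hM M hc)
  let G' : Gram :=
    { V := V'
      T := lL
      P := hPSf.toFinset
      S := M
      TV := by intro a ha; simp [V', ha]
      SV := by simp [V']
      ST := hML
      PL := by
        intro q hq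
        rw [Set.Finite.mem_toFinset] at hq
        obtain ⟨h1, h2, h3⟩ := hPSV q hq
        refine ⟨?_, ?_, h3⟩
        · rcases h1 with h1 | h1
          · simp [V', h1]
          · simp [V', h1]
        · intro hc
          have := hM _ hc
          rcases h1 with h1 | h1
          · omega
          · have := hCodesM _ h1; omega }
  let μ : ℕ → Finset ℕ := fun c => if c ∈ G.T then lL.filter (fun b => h b = c) else
    Fac.image (code M c) ∪ (if c = G.S then {M} else ∅)
  have hμT : ∀ a ∈ G.T, ∀ b, b ∈ μ a ↔ (b ∈ lL ∧ h b = a) := by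
    intro a ha b
    simp [μ, ha]
  have hμN : ∀ A, A ∉ G.T → ∀ b, b ∈ μ A ↔ ((∃ v ∈ Fac, code M A v = b) ∨ (A = G.S ∧ b = M)) := by
    intro A hA b
    simp only [μ, hA, if_false, Finset.mem_union, Finset.mem_image]
    by_cases h1 : A = G.S
    · simp [h1]
    · simp [h1]
  have hcodeM : ∀ A v, M < code M A v := by intro A v; unfold code; omega
  refine ⟨G', μ, ?_, ⟨?_, ?_, ?_, ?_⟩, ?_⟩
  · intro a ha b hb hab
    rw [Finset.disjoint_left]
    intro c hc1 hc2
    by_cases h1 : a ∈ G.T <;> by_cases h2 : b ∈ G.T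
    · rw [hμT a h1] at hc1
      rw [hμT b h2] at hc2
      exact hab (hc1.2.symm.trans hc2.2)
    · rw [hμT a h1] at hc1
      rw [hμN b h2] at hc2
      have h3 := hM c hc1.1
      rcases hc2 with ⟨v, _, rfl⟩ | ⟨_, rfl⟩
      · have := hcodeM b v; omega
      · omega
    · rw [hμN a h1] at hc1
      rw [hμT b h2] at hc2
      have h3 := hM c hc2.1
      rcases hc1 with ⟨v, _, rfl⟩ | ⟨_, rfl⟩
      · have := hcodeM a v; omega
      · omega
    · rw [hμN a h1] at hc1
      rw [hμN b h2] at hc2
      rcases hc1 with ⟨v, _, rfl⟩ | ⟨hS, rfl⟩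
      · rcases hc2 with ⟨v', _, he⟩ | ⟨_, he⟩
        · exact hab (code_inj he).1.symm
        · have := hcodeM a v; omega
      · rcases hc2 with ⟨v', _, he⟩ | ⟨hS', _⟩
        · have := hcodeM b v'; omega
        · exact hab (hS.trans hS'.symm)
  · intro A hA hA' B hB
    rw [hμN A hA'] at hB
    rcases hB with ⟨v, hv, rfl⟩ | ⟨_, rfl⟩
    · have h1 := hCodes A hA hA' v hv
      refine ⟨?_, ?_⟩
      · change _ ∈ V'
        simp [V', h1]
      · intro hc
        have h2 := hM _ hc
        have := hcodeM A v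
        omega
    · refine ⟨?_, hML⟩
      change _ ∈ V'
      simp [V']
  · intro a ha b hb
    rw [hμT a ha] at hb
    exact hb.1
  · intro q hq
    have hq' : q ∈ PS := by
      have : q ∈ hPSf.toFinset := hq
      rwa [Set.Finite.mem_toFinset] at this
    obtain ⟨A, u, x, hp, hu, hmt, hq1⟩ := hq'
    have hpl := G.PL _ hp
    have hu' := (hFac u).1 hu
    refine ⟨(A, x), hp, ?_, ?_⟩
    · rw [hμN A hpl.2.1]
      rcases hq1 with hq1 | hq1
      · exact Or.inl ⟨u, hu, hq1.symm⟩
      · exact Or.inr ⟨hq1.2.1, hq1.1⟩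
    · refine hmt.sub (μ := μ) (n := n) ?_ ?_ hu'.1 hu'.2
      · intro a ha b hb hab
        rw [hμT a ha]
        exact ⟨hb, hab⟩
      · intro A hA hA' v hv1 hv2
        rw [hμN A hA']
        exact Or.inl ⟨v, (hFac v).2 ⟨hv1, hv2⟩, rfl⟩
  · change M ∈ μ G.S
    rw [hμN G.S G.ST]
    exact Or.inr ⟨rfl, rfl⟩
  · -- the language
    have hinv : ∀ z, Relation.ReflTransGen G'.Step [M] z →
        z = [M] ∨ ((∀ c ∈ z, c ≠ M) ∧ z.flatMap (expand M) ∈ L) := by
      intro z hz
      induction hz with
      | refl => exact Or.inl rfl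
      | tail _ hstep ih =>
        right
        obtain ⟨q, hq, l, r, rfl, rfl⟩ := hstep
        have hq' : q ∈ PS := by
          have : q ∈ hPSf.toFinset := hq
          rwa [Set.Finite.mem_toFinset] at this
        obtain ⟨A, u, x, hp, hu, hmt, hq1⟩ := hq'
        have hu' := (hFac u).1 hu
        have hy : ∀ c ∈ q.2, c ≠ M := by
          intro c hc
          rcases hmt.letters hu'.1 hu'.2 c hc with h1 | ⟨B, v, _, _, _, rfl⟩
          · have := hM c h1; omega
          · have := hcodeM B v; omega
        have hex := hmt.expand hM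
        rcases ih with ih | ⟨ih1, ih2⟩
        · -- first step
          have hl : l = [] ∧ r = [] := by
            have := congrArg List.length ih
            simp only [List.length_append, List.length_cons, List.length_nil] at this
            constructor
            · apply List.eq_nil_of_length_eq_zero; omega
            · apply List.eq_nil_of_length_eq_zero; omega
          obtain ⟨rfl, rfl⟩ := hl
          have hqM : q.1 = M := by simpa using ih
          rcases hq1 with hq1 | ⟨_, _, huL⟩
          · have := hcodeM A u; omega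
          · simp only [List.nil_append, List.append_nil]
            exact ⟨hy, by rw [hex]; exact huL⟩
        · have hqM : q.1 ≠ M := ih1 q.1 (by simp)
          rcases hq1 with hq1 | ⟨hq1, _⟩
          · refine ⟨?_, ?_⟩
            · intro c hc
              simp only [List.mem_append] at hc ih1
              rcases hc with (hc | hc) | hc
              · exact ih1 c (Or.inl (Or.inl hc))
              · exact hy c hc
              · exact ih1 c (Or.inr hc)
            · rw [List.flatMap_append, List.flatMap_append, hex]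
              rw [List.flatMap_append, List.flatMap_append, List.flatMap_singleton, hq1,
                expand_code] at ih2
              exact ih2
          · exact absurd hq1 hqM
    have hderiv : ∀ (t : List ℕ), ∀ x, Relation.ReflTransGen G.Step x t → (∀ a ∈ t, a ∈ G.T) →
        ∀ u, u ∈ Fac → u.map h = t →
        ∃ y, Mt G lL M h x u y ∧ Relation.ReflTransGen G'.Step y u := by
      intro t x hx
      induction hx using Relation.ReflTransGen.head_induction_on with
      | refl =>
        intro ht u hu hut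
        refine ⟨u, ?_, Relation.ReflTransGen.refl⟩
        rw [← hut]
        apply Mt.ofTerm
        intro b hb
        refine ⟨((hFac u).1 hu).2 b hb, ht _ ?_⟩
        rw [← hut]
        exact List.mem_map_of_mem hb
      | head hstep _ ih =>
        intro ht u hu hut
        obtain ⟨y, hy, hder⟩ := ih ht u hu hut
        obtain ⟨p, hp, l, r, rfl, rfl⟩ := hstep
        obtain ⟨u12, u3, y12, y3, rfl, rfl, m12, m3⟩ := Mt.split _ _ _ _ hy
        obtain ⟨u1, u2, y1, y2, rfl, rfl, m1, m2⟩ := Mt.split _ _ _ _ m12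
        have hpl := G.PL _ hp
        have hu' := (hFac _).1 hu
        have hu2 : u2 ∈ Fac := by
          rw [hFac]
          simp only [List.length_append, List.mem_append] at hu'
          exact ⟨by omega, fun a ha => hu'.2 a (Or.inl (Or.inr ha))⟩
        refine ⟨y1 ++ [code M p.1 u2] ++ y3, ?_, ?_⟩
        · refine (m1.append ?_).append m3
          have := Mt.nont (h := h) (lL := lL) (M := M) p.1 u2 [] [] [] hpl.1 hpl.2.1 Mt.nil
          simpa using this
        · refine Relation.ReflTransGen.head ⟨(code M p.1 u2, y2), ?_, y1, y3, rfl, rfl⟩ hder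
          change _ ∈ hPSf.toFinset
          rw [Set.Finite.mem_toFinset]
          exact ⟨p.1, u2, p.2, hp, hu2, m2, Or.inl rfl⟩
    ext w
    constructor
    · intro hw
      have hwF : w ∈ Fac := (hFac w).2 ⟨hnL w hw, hlL w hw⟩
      obtain ⟨⟨hT, hder⟩, _⟩ := hh w hw
      refine ⟨⟨fun a ha => hlL w hw a ha, ?_⟩, ?_⟩
      · obtain ⟨y, hy, hyd⟩ := hderiv _ _ hder hT w hwF rfl
        change Relation.ReflTransGen G'.Step [M] w
        cases hy with
        | term _ b _ u y ha _ _ _ => exact absurd ha G.ST
        | nont _ v _ u y _ _ m0 =>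
          cases m0
          rw [List.append_nil] at hw hwF hyd
          rcases Relation.ReflTransGen.cases_head hyd with he | ⟨c, hstep, hc⟩
          · exfalso
            have h0 : code M G.S v ∈ [code M G.S v] := by simp
            have h1 : code M G.S v ∈ v :=
              (congrArg (fun l : List ℕ => code M G.S v ∈ l) he).mp h0
            have h2 := hM _ (hlL v hw _ h1)
            have := hcodeM G.S v
            omega
          · rw [List.append_nil]
            obtain ⟨q, hq, l, r, he, rfl⟩ := hstep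
            have hl : l = [] ∧ r = [] := by
              have := congrArg List.length he
              simp only [List.length_append, List.length_cons, List.length_nil] at this
              constructor
              · apply List.eq_nil_of_length_eq_zero; omega
              · apply List.eq_nil_of_length_eq_zero; omega
            obtain ⟨rfl, rfl⟩ := hl
            have hqM : code M G.S v = q.1 := by simpa using he
            have hq' : q ∈ PS := by
              have : q ∈ hPSf.toFinset := hq
              rwa [Set.Finite.mem_toFinset] at this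
            obtain ⟨A, u, x, hp, hu, hmt, hq1⟩ := hq'
            rcases hq1 with hq1 | ⟨hq1, _⟩
            · obtain ⟨rfl, rfl⟩ := code_inj (hqM.trans hq1)
              refine Relation.ReflTransGen.head ⟨(M, q.2), ?_, [], [], rfl, rfl⟩ hc
              change _ ∈ hPSf.toFinset
              rw [Set.Finite.mem_toFinset]
              exact ⟨G.S, v, x, hp, hu, hmt, Or.inr ⟨rfl, rfl, hw⟩⟩
            · have := hcodeM G.S v
              omega
      · intro h0
        rw [Set.mem_singleton_iff] at h0
        subst h0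
        exact hn hw
    · rintro ⟨⟨hwT, hw⟩, _⟩
      rcases hinv w hw with rfl | ⟨_, h2⟩
      · exact absurd (hwT M (by simp)) hML
      · have : w.flatMap (expand M) = w := by
          have hgen : ∀ w : List ℕ, (∀ a ∈ w, a ∈ lL) → w.flatMap (expand M) = w := by
            intro w
            induction w with
            | nil => intro _; rfl
            | cons a w ih =>
              intro ha
              rw [List.flatMap_cons, ih (fun b hb => ha b (by simp [hb]))]
              simp [expand, hM a (ha a (by simp))]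
          exact hgen w hwT
        rw [this] at h2
        exact h2

end Pool.Agent.N636.GF
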