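import Mathlib
import Pool.Agent.N636.GF.Up

namespace Pool.Agent.N636.GF

theorem mem_fam {G : Gram} (hG : (G.lang \ {[]}).Finite) {L : Set (List ℕ)} :
    L ∈ fam G ↔ L.Finite ∧ [] ∉ L ∧ Hom L (G.lang \ {[]}) :=
  ⟨fun h => ⟨(fam_finite hG h).1, (fam_finite hG h).2, fam_down h⟩,
    fun h => fam_up h.1 h.2.1 h.2.2⟩

theorem lang_simple (G : Gram) (hG : ∀ p ∈ G.P, p.1 = G.S ∧ ∀ a ∈ p.2, a ∈ G.T) :
    G.lang = {w | (G.S, w) ∈ G.P} := by
  have hinv : ∀ z, Relation.ReflTransGen G.Step [G.S] z → z = [G.S] ∨ (G.S, z) ∈ G.P := by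
    intro z hz
    induction hz with
    | refl => exact Or.inl rfl
    | tail _ hstep ih =>
      right
      obtain ⟨p, hp, l, r, rfl, rfl⟩ := hstep
      rcases ih with ih | ih
      · have hl : l = [] ∧ r = [] := by
          have := congrArg List.length ih
          simp only [List.length_append, List.length_cons, List.length_nil] at this
          constructor
          · apply List.eq_nil_of_length_eq_zero; omega
          · apply List.eq_nil_of_length_eq_zero; omega
        obtain ⟨rfl, rfl⟩ := hl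
        simp only [List.nil_append, List.append_nil]
        rw [← (hG p hp).1]
        exact hp
      · exfalso
        have h1 := (hG _ ih).2 p.1 (by simp)
        rw [(hG p hp).1] at h1
        exact G.ST h1
  ext w
  constructor
  · rintro ⟨hT, hw⟩
    rcases hinv w hw with rfl | h
    · exact absurd (hT G.S (by simp)) G.ST
    · exact h
  · intro hw
    refine ⟨(hG _ hw).2, Relation.ReflTransGen.single ⟨(G.S, w), hw, [], [], rfl, by simp⟩⟩

theorem lang_F1 : F1.lang = {[1, 2], [2, 1]} := by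
  rw [lang_simple F1 (by decide)]
  ext w
  simp [F1]

theorem lang_F2 : F2.lang = {[1, 1]} := by
  rw [lang_simple F2 (by decide)]
  ext w
  simp [F2]

theorem exists_form (C : Set (List ℕ)) (hC : C.Finite) (h0 : [] ∉ C) :
    ∃ G : Gram, G.lang = C ∧ G.lang \ {[]} = C := by
  classical
  obtain ⟨l, hl⟩ := letters hC
  obtain ⟨M, hM⟩ : ∃ M, ∀ b ∈ l, b < M := by
    obtain ⟨m, hm⟩ := l.bddAbove
    exact ⟨m + 1, fun b hb => Nat.lt_succ_of_le (hm hb)⟩
  have hMl : M ∉ l := fun hc => lt_irrefl _ (hM M hc)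
  let G : Gram :=
    { V := insert M l
      T := l
      P := hC.toFinset.image (fun w => (M, w))
      S := M
      TV := Finset.subset_insert _ _
      SV := Finset.mem_insert_self _ _
      ST := hMl
      PL := by
        intro p hp
        rw [Finset.mem_image] at hp
        obtain ⟨w, hw, rfl⟩ := hp
        rw [Set.Finite.mem_toFinset] at hw
        exact ⟨Finset.mem_insert_self _ _, hMl, fun a ha => Finset.mem_insert_of_mem (hl w hw a ha)⟩ }
  have hlang : G.lang = C := by
    rw [lang_simple G]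
    · ext w
      change (M, w) ∈ hC.toFinset.image (fun w => (M, w)) ↔ _
      simp
    · intro p hp
      have hp' : p ∈ hC.toFinset.image (fun w => (M, w)) := hp
      rw [Finset.mem_image] at hp'
      obtain ⟨w, hw, rfl⟩ := hp'
      rw [Set.Finite.mem_toFinset] at hw
      exact ⟨rfl, fun a ha => hl w hw a ha⟩
  refine ⟨G, hlang, ?_⟩
  rw [hlang]
  ext w
  simp only [Set.mem_sdiff, Set.mem_singleton_iff, and_iff_left_iff_imp]
  rintro hw rfl
  exact h0 hw

theorem diff_F1 : F1.lang \ {[]} = {[1, 2], [2, 1]} := by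
  rw [lang_F1]; ext w; simp

theorem diff_F2 : F2.lang \ {[]} = {[1, 1]} := by
  rw [lang_F2]; ext w; simp

theorem mem_F1 {L : Set (List ℕ)} :
    L ∈ fam F1 ↔ L.Finite ∧ [] ∉ L ∧ Hom L {[1, 2], [2, 1]} := by
  rw [mem_fam (by rw [diff_F1]; simp), diff_F1]

theorem mem_F2 {L : Set (List ℕ)} :
    L ∈ fam F2 ↔ L.Finite ∧ ∀ w ∈ L, w.length = 2 := by
  rw [mem_fam (by rw [diff_F2]; simp), diff_F2]
  constructor
  · rintro ⟨h1, _, h, hh⟩
    refine ⟨h1, fun w hw => ?_⟩
    have := hh w hw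
    rw [Set.mem_singleton_iff] at this
    have := congrArg List.length this
    simpa using this
  · rintro ⟨h1, h2⟩
    refine ⟨h1, fun h0 => by simpa using h2 _ h0, fun _ => 1, fun w hw => ?_⟩
    obtain ⟨a, b, rfl⟩ := List.length_eq_two.1 (h2 w hw)
    simp

theorem strict : fam F1 ⊂ fam F2 := by
  refine ⟨?_, ?_⟩
  · intro L hL
    rw [mem_F1] at hL
    rw [mem_F2]
    obtain ⟨h1, _, h, hh⟩ := hL
    refine ⟨h1, fun w hw => ?_⟩
    have := hh w hw
    rcases this with this | this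
    · have := congrArg List.length this
      simpa using this
    · have := congrArg List.length this
      simpa using this
  · intro hsub
    have h1 : ({[1, 1]} : Set (List ℕ)) ∈ fam F2 := by
      rw [mem_F2]
      refine ⟨by simp, ?_⟩
      intro w hw
      rw [Set.mem_singleton_iff] at hw
      subst hw
      rfl
    have h2 := hsub h1
    rw [mem_F1] at h2
    obtain ⟨_, _, h, hh⟩ := h2
    have := hh [1, 1] rfl
    simp at this
    omega

theorem dense : DensePair (fam F1) (fam F2) := by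
  rintro _ _ ⟨G1, rfl⟩ ⟨G2, rfl⟩ h1 h12 h2
  have hG2 := mem_F2.1 (h2 (self_mem G2))
  have hG1 := mem_F2.1 (h2 (h12.1 (self_mem G1)))
  have hAB : Hom (G1.lang \ {[]}) (G2.lang \ {[]}) :=
    ((mem_fam hG2.1).1 (h12.1 (self_mem G1))).2.2
  have hBA : ¬ Hom (G2.lang \ {[]}) (G1.lang \ {[]}) := by
    intro hBA
    apply h12.2
    intro L hL
    rw [mem_fam hG2.1] at hL
    rw [mem_fam hG1.1]
    exact ⟨hL.1, hL.2.1, hL.2.2.trans hBA⟩
  have hK : Hom {[1, 2], [2, 1]} (G1.lang \ {[]}) := by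
    have := h1 (self_mem F1)
    rw [diff_F1, mem_fam hG1.1] at this
    exact this.2.2
  obtain ⟨f, hf⟩ := hK
  have hp : [f 1, f 2] ∈ G1.lang \ {[]} := hf [1, 2] (Or.inl rfl)
  have hq : [f 2, f 1] ∈ G1.lang \ {[]} := hf [2, 1] (Or.inr rfl)
  obtain ⟨C, hC, hC2, hAC, hCB, hCA, hBC⟩ := sandwich _ _ hG1.1 hG2.1 hG1.2 hG2.2 _ _ hp hq hAB hBA
  have h0 : [] ∉ C := fun h => by simpa using hC2 _ h
  obtain ⟨G3, _, hG3⟩ := exists_form C hC h0
  have hf3 : (G3.lang \ {[]}).Finite := by rw [hG3]; exact hC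
  refine ⟨fam G3, ⟨G3, rfl⟩, ⟨?_, ?_⟩, ⟨?_, ?_⟩⟩
  · intro L hL
    rw [mem_fam hG1.1] at hL
    rw [mem_fam hf3, hG3]
    exact ⟨hL.1, hL.2.1, hL.2.2.trans hAC⟩
  · intro hsub
    have := hsub (self_mem G3)
    rw [mem_fam hG1.1, hG3] at this
    exact hCA this.2.2
  · intro L hL
    rw [mem_fam hf3, hG3] at hL
    rw [mem_fam hG2.1]
    exact ⟨hL.1, hL.2.1, hL.2.2.trans hCB⟩
  · intro hsub
    have := hsub (self_mem G2)
    rw [mem_fam hf3, hG3] at this
    exact hBC this.2.2

end Pool.Agent.N636.GF
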